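import Mathlib

/-!
# Maximum nullity and zero forcing number of bipartite graphs with one side of degree three

The incidence graph of the Fano plane, with every line copied `m ≥ 10` times, has maximum nullity
at most `7 m - 3` (over the reals) and zero forcing number at least `7 m - 1`.
-/

set_option autoImplicit false

open Module

namespace Pool.Agent.Results.MP_cfc379_co.FanoCopies

/-- The set `𝒮(G)`: the symmetric real matrices whose nonzero off-diagonal entries are exactly at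
the edges of `G` (the diagonal is free). -/
def IsPattern {V : Type} (G : SimpleGraph V) (A : Matrix V V ℝ) : Prop :=
  A.IsSymm ∧ ∀ i j, i ≠ j → (A i j ≠ 0 ↔ G.Adj i j)

/-- The maximum nullity `M(G)`. -/
noncomputable def maxNullity {V : Type} [Fintype V] (G : SimpleGraph V) : ℕ :=
  sSup {k | ∃ A : Matrix V V ℝ, IsPattern G A ∧ finrank ℝ (LinearMap.ker A.mulVecLin) = k}

/-- The vertices which become filled when we start with `B` and use the colour change rule:
if `u` is filled and all its neighbours other than `w` are filled, then its neighbour `w` gets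
filled. -/
inductive Filled {V : Type} (G : SimpleGraph V) (B : Finset V) : V → Prop
  | init (v : V) : v ∈ B → Filled G B v
  | force (u w : V) : Filled G B u → G.Adj u w → (∀ x, G.Adj u x → x ≠ w → Filled G B x) →
      Filled G B w

/-- A zero forcing set. -/
def IsZeroForcing {V : Type} (G : SimpleGraph V) (B : Finset V) : Prop := ∀ v, Filled G B v

/-- The zero forcing number `Z(G)`. -/
noncomputable def zeroForcingNumber {V : Type} (G : SimpleGraph V) : ℕ :=
  sInf {k | ∃ B : Finset V, IsZeroForcing G B ∧ B.card = k}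

/-! ### The graph -/

/-- The point `p` lies on the line `l` of the Fano plane. -/
def Inc (l p : Fin 7) : Prop := p = l ∨ p = l + 1 ∨ p = l + 3

instance (l p : Fin 7) : Decidable (Inc l p) := inferInstanceAs (Decidable (_ ∨ _ ∨ _))

/-- The vertices: `m` copies of each line, and the points. -/
abbrev Vert (m : ℕ) : Type := (Fin m × Fin 7) ⊕ Fin 7

/-- The incidence graph of the Fano plane with `m` copies of each line. -/
def fano (m : ℕ) : SimpleGraph (Vert m) where
  Adj u v := match u, v with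
    | .inl a, .inr p => Inc a.2 p
    | .inr p, .inl a => Inc a.2 p
    | _, _ => False
  symm := ⟨by
    rintro (a | p) (b | q) h
    · exact h
    · exact h
    · exact h
    · exact h⟩
  loopless := ⟨by
    rintro (a | p) h
    · exact h
    · exact h⟩

@[simp] theorem adj_ll {m : ℕ} (a b : Fin m × Fin 7) : (fano m).Adj (.inl a) (.inl b) ↔ False :=
  Iff.rfl
@[simp] theorem adj_rr {m : ℕ} (p q : Fin 7) : (fano m).Adj (.inr p) (.inr q) ↔ False := Iff.rfl
@[simp] theorem adj_lr {m : ℕ} (a : Fin m × Fin 7) (p : Fin 7) :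
    (fano m).Adj (.inl a) (.inr p) ↔ Inc a.2 p := Iff.rfl
@[simp] theorem adj_rl {m : ℕ} (a : Fin m × Fin 7) (p : Fin 7) :
    (fano m).Adj (.inr p) (.inl a) ↔ Inc a.2 p := Iff.rfl

/-! ### Lower bound for the zero forcing number -/

section lower

variable {m : ℕ}

/-- The sum over the points of a line. -/
def pt (x : Vert m → ZMod 2) (l : Fin 7) : ZMod 2 :=
  x (.inr l) + x (.inr (l + 1)) + x (.inr (l + 3))

/-- The sum over the copies of a line. -/
def cp (x : Vert m → ZMod 2) (l : Fin 7) : ZMod 2 := ∑ i : Fin m, x (.inl (i, l))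

/-- The sum over the lines through a point. -/
def ln (x : Vert m → ZMod 2) (p : Fin 7) : ZMod 2 := cp x p + cp x (p - 1) + cp x (p - 3)

/-- Eight of the fourteen conditions. -/
def cond (m : ℕ) : (Vert m → ZMod 2) →ₗ[ZMod 2] (Fin 4 ⊕ Fin 4 → ZMod 2) where
  toFun x := Sum.elim (fun i => pt x (Fin.castLE (by norm_num) i))
    (fun i => ln x (Fin.castLE (by norm_num) i))
  map_add' x y := by
    funext s
    rcases s with i | i
    · simp only [Sum.elim_inl, pt, Pi.add_apply]
      ring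
    · simp only [Sum.elim_inr, ln, cp, Pi.add_apply, Finset.sum_add_distrib]
      ring
  map_smul' c x := by
    funext s
    rcases s with i | i
    · simp only [Sum.elim_inl, pt, Pi.smul_apply, smul_eq_mul, RingHom.id_apply]
      ring
    · simp only [Sum.elim_inr, ln, cp, Pi.smul_apply, smul_eq_mul, RingHom.id_apply,
        ← Finset.mul_sum]
      ring

theorem finrank_ker_cond (m : ℕ) : 7 * m - 1 ≤ finrank (ZMod 2) (LinearMap.ker (cond m)) := by
  have h1 := LinearMap.finrank_range_add_finrank_ker (cond m)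
  have h2 : finrank (ZMod 2) (LinearMap.range (cond m)) ≤ 8 := by
    refine (Submodule.finrank_le _).trans ?_
    simp
  have h3 : finrank (ZMod 2) (Vert m → ZMod 2) = m * 7 + 7 := by simp
  omega

theorem code (a : Fin 7 → ZMod 2) (h0 : a 0 + a 1 + a 3 = 0) (h1 : a 1 + a 2 + a 4 = 0)
    (h2 : a 2 + a 3 + a 5 = 0) (h3 : a 3 + a 4 + a 6 = 0) :
    ∀ l : Fin 7, a l + a (l + 1) + a (l + 3) = 0 := by
  have key : ∀ x0 x1 x2 x3 x4 x5 x6 : ZMod 2, x0 + x1 + x3 = 0 → x1 + x2 + x4 = 0 →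
      x2 + x3 + x5 = 0 → x3 + x4 + x6 = 0 →
      x4 + x5 + x0 = 0 ∧ x5 + x6 + x1 = 0 ∧ x6 + x0 + x2 = 0 := by decide
  obtain ⟨h4, h5, h6⟩ := key _ _ _ _ _ _ _ h0 h1 h2 h3
  intro l
  fin_cases l
  · exact h0
  · exact h1
  · exact h2
  · exact h3
  · exact h4
  · exact h5
  · exact h6

theorem code' (a : Fin 7 → ZMod 2) (h0 : a 0 + a 6 + a 4 = 0) (h1 : a 1 + a 0 + a 5 = 0)
    (h2 : a 2 + a 1 + a 6 = 0) (h3 : a 3 + a 2 + a 0 = 0) :
    ∀ p : Fin 7, a p + a (p - 1) + a (p - 3) = 0 := by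
  have key : ∀ x0 x1 x2 x3 x4 x5 x6 : ZMod 2, x0 + x6 + x4 = 0 → x1 + x0 + x5 = 0 →
      x2 + x1 + x6 = 0 → x3 + x2 + x0 = 0 →
      x4 + x3 + x1 = 0 ∧ x5 + x4 + x2 = 0 ∧ x6 + x5 + x3 = 0 := by decide
  obtain ⟨h4, h5, h6⟩ := key _ _ _ _ _ _ _ h0 h1 h2 h3
  intro p
  fin_cases p
  · exact h0
  · exact h1
  · exact h2
  · exact h3
  · exact h4
  · exact h5
  · exact h6

theorem mem_ker_cond {x : Vert m → ZMod 2} (hx : x ∈ LinearMap.ker (cond m)) :
    (∀ l, pt x l = 0) ∧ ∀ p, ln x p = 0 := by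
  rw [LinearMap.mem_ker] at hx
  constructor
  · exact code (fun p => x (.inr p)) (congrFun hx (.inl 0)) (congrFun hx (.inl 1))
      (congrFun hx (.inl 2)) (congrFun hx (.inl 3))
  · exact code' (fun l => cp x l) (congrFun hx (.inr 0)) (congrFun hx (.inr 1))
      (congrFun hx (.inr 2)) (congrFun hx (.inr 3))

/-- A vector of the kernel which vanishes on `B` vanishes on everything that becomes filled. -/
theorem eq_zero_of_filled {x : Vert m → ZMod 2} (hx : x ∈ LinearMap.ker (cond m))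
    {B : Finset (Vert m)} (hB : ∀ v ∈ B, x v = 0) {v : Vert m} (hv : Filled (fano m) B v) :
    x v = 0 := by
  obtain ⟨hpt, hln⟩ := mem_ker_cond hx
  induction hv with
  | init v hv => exact hB v hv
  | force u w _ huw _ _ ih =>
    rcases u with a | p
    · rcases w with b | q
      · exact absurd huw (by simp)
      · rw [adj_lr] at huw
        have h := hpt a.2
        unfold pt at h
        have hne1 : ∀ l : Fin 7, l + 1 ≠ l ∧ l + 3 ≠ l ∧ l + 3 ≠ l + 1 := by decide
        obtain ⟨n1, n2, n3⟩ := hne1 a.2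
        have ih' : ∀ p : Fin 7, Inc a.2 p → p ≠ q → x (.inr p) = 0 := fun p hp hpq =>
          ih (.inr p) (by simpa using hp) (by simpa using hpq)
        rcases huw with rfl | rfl | rfl
        · rw [ih' (a.2 + 1) (Or.inr (Or.inl rfl)) n1, ih' (a.2 + 3) (Or.inr (Or.inr rfl)) n2] at h
          simpa using h
        · rw [ih' a.2 (Or.inl rfl) n1.symm, ih' (a.2 + 3) (Or.inr (Or.inr rfl)) n3] at h
          simpa using h
        · rw [ih' a.2 (Or.inl rfl) n2.symm, ih' (a.2 + 1) (Or.inr (Or.inl rfl)) n3.symm] at h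
          simpa using h
    · rcases w with b | q
      · rw [adj_rl] at huw
        have h := hln p
        obtain ⟨i, l⟩ := b
        simp only at huw
        have ih' : ∀ (j : Fin m) (k : Fin 7), Inc k p → (j, k) ≠ (i, l) → x (.inl (j, k)) = 0 :=
          fun j k hk hjk => ih (.inl (j, k)) (by simpa using hk) (by
            intro h
            exact hjk (Sum.inl.inj h))
        have hcp0 : ∀ k : Fin 7, Inc k p → k ≠ l → cp x k = 0 := by
          intro k hk hkl
          refine Finset.sum_eq_zero fun j _ => ih' j k hk ?_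
          intro h
          exact hkl (Prod.mk.inj h).2
        have hcpl : cp x l = x (.inl (i, l)) := by
          refine Finset.sum_eq_single i (fun j _ hj => ih' j l huw ?_) (fun h => ?_)
          · intro h
            exact hj (Prod.mk.inj h).1
          · exact absurd (Finset.mem_univ i) h
        rw [← hcpl]
        have hinc : ∀ p : Fin 7, Inc p p ∧ Inc (p - 1) p ∧ Inc (p - 3) p := by decide
        have hinc2 : ∀ l p : Fin 7, Inc l p → l = p ∨ l = p - 1 ∨ l = p - 3 := by decide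
        have hne : ∀ p : Fin 7, p ≠ p - 1 ∧ p ≠ p - 3 ∧ p - 1 ≠ p - 3 := by decide
        obtain ⟨i1, i2, i3⟩ := hinc p
        obtain ⟨n1, n2, n3⟩ := hne p
        unfold ln at h
        rcases hinc2 l p huw with rfl | rfl | rfl
        · rw [hcp0 (l - 1) i2 n1.symm, hcp0 (l - 3) i3 n2.symm] at h
          simpa using h
        · rw [hcp0 p i1 n1, hcp0 (p - 3) i3 n3.symm] at h
          simpa using h
        · rw [hcp0 p i1 n2, hcp0 (p - 1) i2 n3] at h
          simpa using h
      · exact absurd huw (by simp)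

theorem card_le_of_isZeroForcing {B : Finset (Vert m)} (hB : IsZeroForcing (fano m) B) :
    7 * m - 1 ≤ B.card := by
  refine (finrank_ker_cond m).trans ?_
  let f : LinearMap.ker (cond m) →ₗ[ZMod 2] (B → ZMod 2) :=
    (LinearMap.funLeft (ZMod 2) (ZMod 2) (fun b : B => (b : Vert m))).comp
      (LinearMap.ker (cond m)).subtype
  have hf : Function.Injective f := by
    rw [injective_iff_map_eq_zero]
    intro x hx
    apply Subtype.ext
    funext v
    refine eq_zero_of_filled x.2 (B := B) (fun v hv => ?_) (hB v)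
    exact congrFun hx ⟨v, hv⟩
  have h := LinearMap.finrank_le_finrank_of_injective hf
  simpa using h

theorem isZeroForcing_univ : IsZeroForcing (fano m) Finset.univ := fun v =>
  Filled.init v (Finset.mem_univ v)

theorem le_zeroForcingNumber (m : ℕ) : 7 * m - 1 ≤ zeroForcingNumber (fano m) := by
  refine le_csInf ⟨_, Finset.univ, isZeroForcing_univ, rfl⟩ ?_
  rintro k ⟨B, hB, rfl⟩
  exact card_le_of_isZeroForcing hB

end lower

/-! ### Real matrices with the pattern of the Fano plane -/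

section real

/-- The kernel of a real matrix with the pattern of the Fano plane has dimension at most two. -/
theorem finrank_ker_le_two (B : Matrix (Fin 7) (Fin 7) ℝ) (hB : ∀ l p, B l p ≠ 0 ↔ Inc l p) :
    finrank ℝ (LinearMap.ker B.mulVecLin) ≤ 2 := by
  by_contra hcon
  push Not at hcon
  have hz : ∀ l p, ¬ Inc l p → B l p = 0 := fun l p h => by
    by_contra h'
    exact h ((hB l p).1 h')
  -- the seven equations
  have eqs : ∀ x ∈ LinearMap.ker B.mulVecLin,
      (B 0 0 * x 0 + B 0 1 * x 1 + B 0 3 * x 3 = 0) ∧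
      (B 1 1 * x 1 + B 1 2 * x 2 + B 1 4 * x 4 = 0) ∧
      (B 2 2 * x 2 + B 2 3 * x 3 + B 2 5 * x 5 = 0) ∧
      (B 3 3 * x 3 + B 3 4 * x 4 + B 3 6 * x 6 = 0) ∧
      (B 4 4 * x 4 + B 4 5 * x 5 + B 4 0 * x 0 = 0) ∧
      (B 5 5 * x 5 + B 5 6 * x 6 + B 5 1 * x 1 = 0) ∧
      (B 6 6 * x 6 + B 6 0 * x 0 + B 6 2 * x 2 = 0) := by
    intro x hx
    rw [LinearMap.mem_ker, Matrix.mulVecLin_apply] at hx
    have h : ∀ l, ∑ p, B l p * x p = 0 := fun l => congrFun hx l
    have e0 := h 0
    have e1 := h 1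
    have e2 := h 2
    have e3 := h 3
    have e4 := h 4
    have e5 := h 5
    have e6 := h 6
    rw [Fin.sum_univ_seven] at e0 e1 e2 e3 e4 e5 e6
    rw [hz 0 2 (by decide), hz 0 4 (by decide), hz 0 5 (by decide), hz 0 6 (by decide)] at e0
    rw [hz 1 0 (by decide), hz 1 3 (by decide), hz 1 5 (by decide), hz 1 6 (by decide)] at e1
    rw [hz 2 0 (by decide), hz 2 1 (by decide), hz 2 4 (by decide), hz 2 6 (by decide)] at e2
    rw [hz 3 0 (by decide), hz 3 1 (by decide), hz 3 2 (by decide), hz 3 5 (by decide)] at e3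
    rw [hz 4 1 (by decide), hz 4 2 (by decide), hz 4 3 (by decide), hz 4 6 (by decide)] at e4
    rw [hz 5 0 (by decide), hz 5 2 (by decide), hz 5 3 (by decide), hz 5 4 (by decide)] at e5
    rw [hz 6 1 (by decide), hz 6 3 (by decide), hz 6 4 (by decide), hz 6 5 (by decide)] at e6
    refine ⟨?_, ?_, ?_, ?_, ?_, ?_, ?_⟩ <;> linarith
  -- restriction to three coordinates
  let f : LinearMap.ker B.mulVecLin →ₗ[ℝ] (Fin 3 → ℝ) :=
    (LinearMap.funLeft ℝ ℝ (![0, 1, 2] : Fin 3 → Fin 7)).comp (LinearMap.ker B.mulVecLin).subtype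
  have hn : ∀ l p, Inc l p → B l p ≠ 0 := fun l p h => (hB l p).2 h
  have hinj : Function.Injective f := by
    rw [injective_iff_map_eq_zero]
    intro x hx
    have x0 : (x : Fin 7 → ℝ) 0 = 0 := congrFun hx 0
    have x1 : (x : Fin 7 → ℝ) 1 = 0 := congrFun hx 1
    have x2 : (x : Fin 7 → ℝ) 2 = 0 := congrFun hx 2
    obtain ⟨e0, e1, e2, e3, e4, e5, e6⟩ := eqs x x.2
    have x3 : (x : Fin 7 → ℝ) 3 = 0 := by
      rw [x0, x1] at e0
      have : B 0 3 * (x : Fin 7 → ℝ) 3 = 0 := by linarith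
      exact (mul_eq_zero.1 this).resolve_left (hn 0 3 (by decide))
    have x4 : (x : Fin 7 → ℝ) 4 = 0 := by
      rw [x1, x2] at e1
      have : B 1 4 * (x : Fin 7 → ℝ) 4 = 0 := by linarith
      exact (mul_eq_zero.1 this).resolve_left (hn 1 4 (by decide))
    have x6 : (x : Fin 7 → ℝ) 6 = 0 := by
      rw [x0, x2] at e6
      have : B 6 6 * (x : Fin 7 → ℝ) 6 = 0 := by linarith
      exact (mul_eq_zero.1 this).resolve_left (hn 6 6 (by decide))
    have x5 : (x : Fin 7 → ℝ) 5 = 0 := by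
      rw [x2, x3] at e2
      have : B 2 5 * (x : Fin 7 → ℝ) 5 = 0 := by linarith
      exact (mul_eq_zero.1 this).resolve_left (hn 2 5 (by decide))
    apply Subtype.ext
    funext i
    fin_cases i
    · exact x0
    · exact x1
    · exact x2
    · exact x3
    · exact x4
    · exact x5
    · exact x6
  have hle := LinearMap.finrank_le_finrank_of_injective hinj
  have h3 : finrank ℝ (Fin 3 → ℝ) = 3 := by simp
  have hsurj : Function.Surjective f := by
    rw [← LinearMap.injective_iff_surjective_of_finrank_eq_finrank]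
    · exact hinj
    · omega
  obtain ⟨u, hu⟩ := hsurj ![1, 0, 0]
  obtain ⟨v, hv⟩ := hsurj ![0, 1, 0]
  obtain ⟨w, hw⟩ := hsurj ![0, 0, 1]
  have u0 : (u : Fin 7 → ℝ) 0 = 1 := congrFun hu 0
  have u1 : (u : Fin 7 → ℝ) 1 = 0 := congrFun hu 1
  have u2 : (u : Fin 7 → ℝ) 2 = 0 := congrFun hu 2
  have v0 : (v : Fin 7 → ℝ) 0 = 0 := congrFun hv 0
  have v1 : (v : Fin 7 → ℝ) 1 = 1 := congrFun hv 1
  have v2 : (v : Fin 7 → ℝ) 2 = 0 := congrFun hv 2
  have w0 : (w : Fin 7 → ℝ) 0 = 0 := congrFun hw 0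
  have w1 : (w : Fin 7 → ℝ) 1 = 0 := congrFun hw 1
  have w2 : (w : Fin 7 → ℝ) 2 = 1 := congrFun hw 2
  obtain ⟨a0, a1, a2, a3, a4, a5, a6⟩ := eqs u u.2
  obtain ⟨b0, b1, b2, b3, b4, b5, b6⟩ := eqs v v.2
  obtain ⟨c0, c1, c2, c3, c4, c5, c6⟩ := eqs w w.2
  rw [u0, u1] at a0
  rw [u1, u2] at a1
  rw [u2] at a2
  rw [u0] at a4
  rw [u1] at a5
  rw [u0, u2] at a6
  rw [v0, v1] at b0
  rw [v1, v2] at b1
  rw [v2] at b2
  rw [v0] at b4
  rw [v1] at b5
  rw [v0, v2] at b6
  rw [w0, w1] at c0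
  rw [w1, w2] at c1
  rw [w2] at c2
  rw [w0] at c4
  rw [w1] at c5
  rw [w0, w2] at c6
  -- vanishing coordinates
  have u4 : (u : Fin 7 → ℝ) 4 = 0 := by
    have : B 1 4 * (u : Fin 7 → ℝ) 4 = 0 := by linarith
    exact (mul_eq_zero.1 this).resolve_left (hn 1 4 (by decide))
  have v6 : (v : Fin 7 → ℝ) 6 = 0 := by
    have : B 6 6 * (v : Fin 7 → ℝ) 6 = 0 := by linarith
    exact (mul_eq_zero.1 this).resolve_left (hn 6 6 (by decide))
  have w3 : (w : Fin 7 → ℝ) 3 = 0 := by
    have : B 0 3 * (w : Fin 7 → ℝ) 3 = 0 := by linarith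
    exact (mul_eq_zero.1 this).resolve_left (hn 0 3 (by decide))
  rw [u4] at a3 a4
  rw [v6] at b3 b5
  rw [w3] at c2 c3
  have u3 : (u : Fin 7 → ℝ) 3 ≠ 0 := by
    intro h
    rw [h] at a0
    exact hn 0 0 (by decide) (by linarith)
  have v3 : (v : Fin 7 → ℝ) 3 ≠ 0 := by
    intro h
    rw [h] at b0
    exact hn 0 1 (by decide) (by linarith)
  have w4 : (w : Fin 7 → ℝ) 4 ≠ 0 := by
    intro h
    rw [h] at c1
    exact hn 1 2 (by decide) (by linarith)
  -- the three quotients
  have hDG : B 2 5 ≠ 0 := hn 2 5 (by decide)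
  have hD1 : B 2 3 ≠ 0 := hn 2 3 (by decide)
  have hE1 : B 4 4 ≠ 0 := hn 4 4 (by decide)
  have hA1 : B 4 5 ≠ 0 := hn 4 5 (by decide)
  have hF1 : B 5 6 ≠ 0 := hn 5 6 (by decide)
  have hB1 : B 5 5 ≠ 0 := hn 5 5 (by decide)
  have hD : B 3 3 ≠ 0 := hn 3 3 (by decide)
  have hE : B 3 4 ≠ 0 := hn 3 4 (by decide)
  have hF : B 3 6 ≠ 0 := hn 3 6 (by decide)
  -- first vector: B55 u5 + B56 u6 = 0, B23 u3 + B25 u5 = 0, B33 u3 + B36 u6 = 0
  have u5 : (u : Fin 7 → ℝ) 5 ≠ 0 := by
    intro h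
    rw [h] at a2
    have : B 2 3 * (u : Fin 7 → ℝ) 3 = 0 := by linarith
    exact u3 ((mul_eq_zero.1 this).resolve_left hD1)
  have v5 : (v : Fin 7 → ℝ) 5 ≠ 0 := by
    intro h
    rw [h] at b2
    have : B 2 3 * (v : Fin 7 → ℝ) 3 = 0 := by linarith
    exact v3 ((mul_eq_zero.1 this).resolve_left hD1)
  have w5 : (w : Fin 7 → ℝ) 5 ≠ 0 := by
    intro h
    rw [h] at c4
    have : B 4 4 * (w : Fin 7 → ℝ) 4 = 0 := by linarith
    exact w4 ((mul_eq_zero.1 this).resolve_left hE1)
  have P : B 3 3 * B 2 5 * B 5 6 + B 3 6 * B 5 5 * B 2 3 = 0 := by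
    have h : (B 3 3 * B 2 5 * B 5 6 + B 3 6 * B 5 5 * B 2 3) * (u : Fin 7 → ℝ) 5 = 0 := by
      linear_combination (B 3 3 * B 5 6) * a2 - (B 5 6 * B 2 3) * a3 + (B 3 6 * B 2 3) * a5
    exact (mul_eq_zero.1 h).resolve_right u5
  have Q : B 3 3 * B 2 5 * B 4 4 + B 3 4 * B 4 5 * B 2 3 = 0 := by
    have h : (B 3 3 * B 2 5 * B 4 4 + B 3 4 * B 4 5 * B 2 3) * (v : Fin 7 → ℝ) 5 = 0 := by
      linear_combination (B 3 3 * B 4 4) * b2 - (B 4 4 * B 2 3) * b3 + (B 3 4 * B 2 3) * b4
    exact (mul_eq_zero.1 h).resolve_right v5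
  have R : B 3 4 * B 4 5 * B 5 6 + B 3 6 * B 5 5 * B 4 4 = 0 := by
    have h : (B 3 4 * B 4 5 * B 5 6 + B 3 6 * B 5 5 * B 4 4) * (w : Fin 7 → ℝ) 5 = 0 := by
      linear_combination (B 3 4 * B 5 6) * c4 - (B 4 4 * B 5 6) * c3 + (B 3 6 * B 4 4) * c5
    exact (mul_eq_zero.1 h).resolve_right w5
  have h2 : 2 * (B 3 3 * B 2 5 * B 5 6 * B 4 4) = 0 := by
    linear_combination B 4 4 * P + B 5 6 * Q - B 2 3 * R
  have : B 3 3 * B 2 5 * B 5 6 * B 4 4 ≠ 0 :=
    mul_ne_zero (mul_ne_zero (mul_ne_zero hD hDG) hF1) hE1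
  exact this (by linarith)


variable {m : ℕ}

theorem finrank_case_one {A : Matrix (Vert m) (Vert m) ℝ} (hA : IsPattern (fano m) A) (l : Fin 7)
    (hl : ∀ i : Fin m, A (.inl (i, l)) (.inl (i, l)) ≠ 0) :
    finrank ℝ (LinearMap.ker A.mulVecLin) ≤ 6 * m + 7 := by
  let g : (Fin m × {k : Fin 7 // k ≠ l}) ⊕ Fin 7 → Vert m :=
    Sum.map (fun a => (a.1, (a.2 : Fin 7))) id
  let f : LinearMap.ker A.mulVecLin →ₗ[ℝ] ((Fin m × {k : Fin 7 // k ≠ l}) ⊕ Fin 7 → ℝ) :=
    (LinearMap.funLeft ℝ ℝ g).comp (LinearMap.ker A.mulVecLin).subtype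
  have hf : Function.Injective f := by
    rw [injective_iff_map_eq_zero]
    intro x hx
    have hx' : ∀ s, (x : Vert m → ℝ) (g s) = 0 := fun s => congrFun hx s
    have hr : ∀ p : Fin 7, (x : Vert m → ℝ) (.inr p) = 0 := fun p => hx' (.inr p)
    have hne : ∀ (i : Fin m) (k : Fin 7), k ≠ l → (x : Vert m → ℝ) (.inl (i, k)) = 0 :=
      fun i k hk => hx' (.inl (i, ⟨k, hk⟩))
    have hxk := x.2
    rw [LinearMap.mem_ker, Matrix.mulVecLin_apply] at hxk
    apply Subtype.ext
    funext v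
    rcases v with ⟨i, k⟩ | p
    · by_cases hk : k = l
      · subst hk
        have h1 : ∑ w, A (.inl (i, k)) w * (x : Vert m → ℝ) w = 0 := congrFun hxk (.inl (i, k))
        rw [Finset.sum_eq_single (Sum.inl (i, k))] at h1
        · exact (mul_eq_zero.1 h1).resolve_left (hl i)
        · rintro (⟨j, k'⟩ | p) _ hw
          · have h2 : A (.inl (i, k)) (.inl (j, k')) = 0 := by
              by_contra h3
              have := (hA.2 _ _ (Ne.symm hw)).1 h3
              simp at this
            rw [h2, zero_mul]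
          · rw [hr p, mul_zero]
        · intro h
          exact absurd (Finset.mem_univ _) h
      · exact hne i k hk
    · exact hr p
  have h := LinearMap.finrank_le_finrank_of_injective hf
  refine h.trans (le_of_eq ?_)
  simp
  ring

theorem finrank_case_two {A : Matrix (Vert m) (Vert m) ℝ} (hA : IsPattern (fano m) A)
    (hm : 1 ≤ m) (hl : ∀ l : Fin 7, ∃ i : Fin m, A (.inl (i, l)) (.inl (i, l)) = 0) :
    finrank ℝ (LinearMap.ker A.mulVecLin) ≤ 7 * m - 3 := by
  choose c hc using hl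
  let B : Matrix (Fin 7) (Fin 7) ℝ := fun l p => A (.inl (c l, l)) (.inr p)
  have hB : ∀ l p, B l p ≠ 0 ↔ Inc l p := fun l p => by
    have := hA.2 (.inl (c l, l)) (.inr p) (by simp)
    simpa using this
  have hB2 := finrank_ker_le_two B hB
  let C : Matrix (Fin 7) (Fin m × Fin 7) ℝ := fun p a => A (.inr p) (.inl a)
  -- the rank of `C`
  have hker : LinearMap.ker C.transpose.mulVecLin ≤ LinearMap.ker B.mulVecLin := by
    intro y hy
    rw [LinearMap.mem_ker, Matrix.mulVecLin_apply] at hy ⊢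
    funext l
    have h1 : ∑ p, A (.inr p) (.inl (c l, l)) * y p = 0 := congrFun hy (c l, l)
    change ∑ p, A (.inl (c l, l)) (.inr p) * y p = 0
    rw [← h1]
    refine Finset.sum_congr rfl fun p _ => ?_
    rw [hA.1.apply]
  have hrank : 5 ≤ C.rank := by
    have h1 := LinearMap.finrank_range_add_finrank_ker C.transpose.mulVecLin
    have h2 := Submodule.finrank_mono hker
    have h3 : C.transpose.rank = finrank ℝ (LinearMap.range C.transpose.mulVecLin) := rfl
    have h4 : C.transpose.rank = C.rank := Matrix.rank_transpose C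
    have h5 : finrank ℝ (Fin 7 → ℝ) = 7 := by simp
    omega
  have hkerC : finrank ℝ (LinearMap.ker C.mulVecLin) ≤ 7 * m - 5 := by
    have h1 := LinearMap.finrank_range_add_finrank_ker C.mulVecLin
    have h3 : C.rank = finrank ℝ (LinearMap.range C.mulVecLin) := rfl
    have h5 : finrank ℝ (Fin m × Fin 7 → ℝ) = m * 7 := by simp
    omega
  -- the projection to the point coordinates
  let φ : LinearMap.ker A.mulVecLin →ₗ[ℝ] (Fin 7 → ℝ) :=
    (LinearMap.funLeft ℝ ℝ Sum.inr).comp (LinearMap.ker A.mulVecLin).subtype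
  have hφ := LinearMap.finrank_range_add_finrank_ker φ
  have hrange : LinearMap.range φ ≤ LinearMap.ker B.mulVecLin := by
    rintro _ ⟨x, rfl⟩
    have hxk := x.2
    rw [LinearMap.mem_ker, Matrix.mulVecLin_apply] at hxk ⊢
    funext l
    change ∑ p, A (.inl (c l, l)) (.inr p) * (x : Vert m → ℝ) (.inr p) = 0
    have h1 : ∑ w, A (.inl (c l, l)) w * (x : Vert m → ℝ) w = 0 := congrFun hxk (.inl (c l, l))
    rw [Fintype.sum_sum_type] at h1
    have h2 : ∑ a : Fin m × Fin 7, A (.inl (c l, l)) (.inl a) * (x : Vert m → ℝ) (.inl a) = 0 := by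
      refine Finset.sum_eq_zero fun a _ => ?_
      by_cases ha : a = (c l, l)
      · rw [ha, hc l, zero_mul]
      · have h2 : A (.inl (c l, l)) (.inl a) = 0 := by
          by_contra h3
          have := (hA.2 (.inl (c l, l)) (.inl a) (fun h => ha (Sum.inl.inj h).symm)).1 h3
          simp at this
        rw [h2, zero_mul]
    rw [h2, zero_add] at h1
    exact h1
  have hr2 := Submodule.finrank_mono hrange
  let ψ : LinearMap.ker φ →ₗ[ℝ] LinearMap.ker C.mulVecLin :=
    LinearMap.codRestrict _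
      ((LinearMap.funLeft ℝ ℝ Sum.inl).comp
        ((LinearMap.ker A.mulVecLin).subtype.comp (LinearMap.ker φ).subtype)) (by
      intro x
      have hxk := x.1.2
      have hx0 : ∀ p : Fin 7, (x.1.1 : Vert m → ℝ) (.inr p) = 0 := fun p =>
        congrFun (LinearMap.mem_ker.1 x.2) p
      rw [LinearMap.mem_ker, Matrix.mulVecLin_apply] at hxk ⊢
      funext p
      change ∑ a, A (.inr p) (.inl a) * (x.1.1 : Vert m → ℝ) (.inl a) = 0
      have h1 : ∑ w, A (.inr p) w * (x.1.1 : Vert m → ℝ) w = 0 := congrFun hxk (.inr p)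
      rw [Fintype.sum_sum_type] at h1
      have h2 : ∑ q : Fin 7, A (.inr p) (.inr q) * (x.1.1 : Vert m → ℝ) (.inr q) = 0 :=
        Finset.sum_eq_zero fun q _ => by rw [hx0 q, mul_zero]
      rw [h2, add_zero] at h1
      exact h1)
  have hψ : Function.Injective ψ := by
    rw [injective_iff_map_eq_zero]
    intro x hx
    have hx0 : ∀ p : Fin 7, (x.1.1 : Vert m → ℝ) (.inr p) = 0 := fun p =>
      congrFun (LinearMap.mem_ker.1 x.2) p
    have hx1 : ∀ a, (x.1.1 : Vert m → ℝ) (.inl a) = 0 := fun a =>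
      congrFun (congrArg Subtype.val hx) a
    apply Subtype.ext
    apply Subtype.ext
    funext v
    rcases v with a | p
    · exact hx1 a
    · exact hx0 p
  have h := LinearMap.finrank_le_finrank_of_injective hψ
  omega

theorem maxNullity_le (hm : 10 ≤ m) : maxNullity (fano m) ≤ 7 * m - 3 := by
  refine csSup_le' ?_
  rintro k ⟨A, hA, rfl⟩
  by_cases h : ∃ l : Fin 7, ∀ i : Fin m, A (.inl (i, l)) (.inl (i, l)) ≠ 0
  · obtain ⟨l, hl⟩ := h
    have := finrank_case_one hA l hl
    omega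
  · push Not at h
    exact finrank_case_two hA (by omega) h

end real

/-! ### The graph is connected -/

theorem connected {m : ℕ} (hm : 1 ≤ m) : (fano m).Connected := by
  have hp : ∀ p : Fin 7, (fano m).Reachable (.inr 0) (.inr p) := by
    intro p
    have h : ∀ p : Fin 7, ∃ l : Fin 7, Inc l 0 ∧ Inc l p := by decide
    obtain ⟨l, h1, h2⟩ := h p
    have e1 : (fano m).Adj (.inr 0) (.inl (⟨0, hm⟩, l)) := h1
    have e2 : (fano m).Adj (.inl (⟨0, hm⟩, l)) (.inr p) := h2
    exact e1.reachable.trans e2.reachable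
  have hall : ∀ v, (fano m).Reachable (.inr 0) v := by
    rintro (a | p)
    · have e : (fano m).Adj (.inr a.2) (.inl a) := Or.inl rfl
      exact (hp a.2).trans e.reachable
    · exact hp p
  rw [SimpleGraph.connected_iff_exists_forall_reachable]
  exact ⟨_, hall⟩

/-- For every `c` there is a connected bipartite graph with sides `X`, `Y`, `|X| ≥ c |Y|`, every
vertex of `X` of degree exactly three, and `M(G) + 2 ≤ Z(G)`. -/
theorem result : ∀ c : ℕ, ∃ (V : Type) (_ : Fintype V) (G : SimpleGraph V) (X Y : Set V),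
    G.Connected ∧ X ∪ Y = Set.univ ∧ Disjoint X Y ∧
    (∀ u v, G.Adj u v → (u ∈ X ∧ v ∈ Y) ∨ (u ∈ Y ∧ v ∈ X)) ∧
    Y.ncard ≤ X.ncard ∧ c * Y.ncard ≤ X.ncard ∧
    (∀ x ∈ X, (G.neighborSet x).ncard = 3) ∧
    maxNullity G + 2 ≤ zeroForcingNumber G := by
  intro c
  obtain ⟨m, hm, hcm⟩ : ∃ m, 10 ≤ m ∧ c ≤ m := ⟨10 + c, by omega, by omega⟩
  have hX : (Set.range (Sum.inl : Fin m × Fin 7 → Vert m)).ncard = m * 7 := by
    rw [← Set.image_univ, Set.ncard_image_of_injective _ Sum.inl_injective, Set.ncard_univ,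
      Nat.card_eq_fintype_card]
    simp
  have hY : (Set.range (Sum.inr : Fin 7 → Vert m)).ncard = 7 := by
    rw [← Set.image_univ, Set.ncard_image_of_injective _ Sum.inr_injective, Set.ncard_univ,
      Nat.card_eq_fintype_card]
    simp
  refine ⟨Vert m, inferInstance, fano m, Set.range Sum.inl, Set.range Sum.inr,
    connected (by omega), Set.range_inl_union_range_inr, ?_, ?_, ?_, ?_, ?_, ?_⟩
  · rw [Set.disjoint_left]
    rintro _ ⟨a, rfl⟩ ⟨p, h⟩
    cases h
  · rintro (a | p) (b | q) h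
    · exact absurd h (by simp)
    · exact Or.inl ⟨⟨a, rfl⟩, ⟨q, rfl⟩⟩
    · exact Or.inr ⟨⟨p, rfl⟩, ⟨b, rfl⟩⟩
    · exact absurd h (by simp)
  · rw [hX, hY]
    omega
  · rw [hX, hY]
    exact Nat.mul_le_mul_right 7 hcm
  · rintro _ ⟨⟨i, l⟩, rfl⟩
    have : (fano m).neighborSet (.inl (i, l)) =
        Sum.inr '' (({l, l + 1, l + 3} : Finset (Fin 7)) : Set (Fin 7)) := by
      ext v
      rcases v with b | q
      · simp
      · simp [Inc]
    rw [this, Set.ncard_image_of_injective _ Sum.inr_injective, Set.ncard_coe_finset]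
    have h3 : ∀ l : Fin 7, ({l, l + 1, l + 3} : Finset (Fin 7)).card = 3 := by decide
    exact h3 l
  · have h1 := maxNullity_le hm
    have h2 := le_zeroForcingNumber m
    omega

end Pool.Agent.Results.MP_cfc379_co.FanoCopies
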